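import Mathlib
import Pool.Agent.Q96.NoBlidLp

/-!
# `ℓ_p` has no smooth blid map when `p` is not an even integer
-/

set_option autoImplicit false

open Filter Topology Set Q96.DiagLp Q96.NoBlidLp
open scoped ENNReal

namespace Pool.Agent.Results.MP_94b2f9_an.NoSmoothBlid

/-- the real space `ℓ_p` -/
abbrev Lp (p : ℝ≥0∞) : Type := lp (fun _ : ℕ => ℝ) p

/-- `H` is a `C^q` blid map on `X`: it is `C^q`, bounded, and the identity near `0` -/
def IsBlid {X : Type} [NormedAddCommGroup X] [NormedSpace ℝ X] (q : ℕ∞) (H : X → X) : Prop :=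
  ContDiff ℝ q H ∧ (∃ K : ℝ, ∀ x, ‖H x‖ ≤ K) ∧ ∀ᶠ x in 𝓝 (0 : X), H x = x

/-- the basis of `ℓ_p` -/
noncomputable def basis (p : ℝ≥0∞) [Fact (1 ≤ p)] (hp : p ≠ ⊤) : LpBasis (Lp p) p.toReal where
  e := fun n => lp.single p n (1 : ℝ)
  c := fun n => lp.evalCLM ℝ (fun _ : ℕ => ℝ) p n
  hp := by
    have h1 : (1 : ℝ≥0∞) ≤ p := Fact.out
    have h2 := ENNReal.toReal_mono hp h1
    rwa [ENNReal.toReal_one] at h2
  hce := fun i j => by
    change (lp.single p j (1 : ℝ) : Lp p) i = _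
    rw [lp.single_apply, Pi.single_apply]
  h1 := fun S a => by
    have hp0 : 0 < p.toReal :=
      ENNReal.toReal_pos (ne_of_gt (lt_of_lt_of_le one_pos (Fact.out : (1 : ℝ≥0∞) ≤ p))) hp
    have h2 := lp.norm_sum_single (E := fun _ : ℕ => ℝ) hp0 a S
    have h3 : ∀ i, (lp.single p i (a i) : Lp p) = a i • lp.single p i (1 : ℝ) := by
      intro i
      rw [← lp.single_smul, smul_eq_mul, mul_one]
    simp only [h3, Real.norm_eq_abs] at h2
    exact h2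
  h2 := fun x S => by
    have hp0 : 0 < p.toReal :=
      ENNReal.toReal_pos (ne_of_gt (lt_of_lt_of_le one_pos (Fact.out : (1 : ℝ≥0∞) ≤ p))) hp
    exact lp.sum_rpow_le_norm_rpow hp0 x S
  h3 := fun x η hη => by
    have hp0 : 0 < p.toReal :=
      ENNReal.toReal_pos (ne_of_gt (lt_of_lt_of_le one_pos (Fact.out : (1 : ℝ≥0∞) ≤ p))) hp
    have h4 := (lp.hasSum_norm hp0 x).tendsto_sum_nat
    have h5 := h4.eventually (lt_mem_nhds (show ‖x‖ ^ p.toReal - η < ‖x‖ ^ p.toReal by linarith))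
    obtain ⟨N, hN⟩ := eventually_atTop.mp h5
    exact ⟨N, fun M hM => (hN M hM).le⟩

/-- **Negative answer for every `p`.** If `1 ≤ p < ∞` is not an even integer then `ℓ_p` has no blid
map of class `C^q` for any `q ≥ ⌊p⌋ + 2`; in particular it has no `C^∞` blid map. -/
theorem result (p : ℝ≥0∞) [Fact (1 ≤ p)] (hp : p ≠ ⊤) (hpe : ∀ k : ℕ, p ≠ 2 * k) (q : ℕ∞)
    (hq : ((⌊p.toReal⌋₊ + 2 : ℕ) : ℕ∞) ≤ q) (H : Lp p → Lp p) : ¬ IsBlid q H := by
  rintro ⟨hH, ⟨K, hK⟩, hid⟩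
  have hq' : ((⌊p.toReal⌋₊ + 2 : ℕ) : WithTop ℕ∞) ≤ (q : WithTop ℕ∞) :=
    WithTop.coe_le_coe.mpr hq
  apply no_blid (basis p hp) _ H (hH.of_le hq') K hK hid
  intro k hk
  apply hpe k
  rw [← ENNReal.ofReal_toReal hp, hk, ENNReal.ofReal_mul (by norm_num)]
  simp

end Pool.Agent.Results.MP_94b2f9_an.NoSmoothBlid
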